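import Mathlib

/-!
Collision count for random threshold labels.
-/

set_option autoImplicit false

open Finset

namespace Pool.Agent.TH285.BD

/-- the bit of the threshold `a` at the label `l` -/
def bt (a l : ℕ) : ZMod 2 := if a ≤ l then 1 else 0

/-- the non-trivial character of `ZMod 2` -/
noncomputable def ch (x : ZMod 2) : ℝ := if x = 0 then 1 else -1

lemma ch_zero : ch 0 = 1 := by simp [ch]

lemma zmod2_cases (x : ZMod 2) : x = 0 ∨ x = 1 := by
  fin_cases x
  · left; rfl
  · right; rfl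

lemma ch_one : ch 1 = -1 := by
  simp [ch]

lemma one_add_one : (1 : ZMod 2) + 1 = 0 := by decide

lemma ch_add (x y : ZMod 2) : ch (x + y) = ch x * ch y := by
  rcases zmod2_cases x with rfl | rfl <;> rcases zmod2_cases y with rfl | rfl <;>
    simp [ch_zero, ch_one, one_add_one]

lemma ch_sum {ι : Type*} (s : Finset ι) (f : ι → ZMod 2) :
    ch (∑ j ∈ s, f j) = ∏ j ∈ s, ch (f j) := by
  classical
  induction s using Finset.induction_on with
  | empty => simp [ch_zero]
  | insert a s ha ih => rw [Finset.sum_insert ha, Finset.prod_insert ha, ch_add, ih]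

lemma half_ind (x : ZMod 2) : (1 + ch x) / 2 = if x = 0 then (1 : ℝ) else 0 := by
  rcases zmod2_cases x with rfl | rfl
  · simp [ch_zero]
  · simp [ch_one]

/-- the vector represented by thresholds `g` for the labels `lam` -/
def vec {n d q h : ℕ} (lam : Fin n → Fin d → Fin q) (g : Fin d → Fin h) : Fin n → ZMod 2 :=
  fun i => ∑ j, bt (g j) (lam i j)

lemma eq_iff_add_zero (x y : ZMod 2) : x = y ↔ x + y = 0 := by
  rcases zmod2_cases x with rfl | rfl <;> rcases zmod2_cases y with rfl | rfl <;>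
    simp [one_add_one]

lemma ind_eq {n : ℕ} (v w : Fin n → ZMod 2) :
    (if v = w then (1 : ℝ) else 0) = ∏ i, (1 + ch (v i + w i)) / 2 := by
  by_cases h : v = w
  · subst h
    rw [if_pos rfl]
    symm
    apply Finset.prod_eq_one
    intro i _
    rw [half_ind, if_pos ((eq_iff_add_zero _ _).1 rfl)]
  · rw [if_neg h]
    obtain ⟨i, hi⟩ := Function.ne_iff.1 h
    symm
    apply Finset.prod_eq_zero (Finset.mem_univ i)
    rw [half_ind, if_neg]
    rwa [← eq_iff_add_zero]

/-- the correlation of two thresholds -/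
noncomputable def R (q a b : ℕ) : ℝ := ∑ l : Fin q, ch (bt a l + bt b l)

/-- number of collisions -/
noncomputable def coll {n d q : ℕ} (h : ℕ) (lam : Fin n → Fin d → Fin q) : ℝ :=
  ∑ p : (Fin d → Fin h) × (Fin d → Fin h), if vec lam p.1 = vec lam p.2 then (1 : ℝ) else 0

lemma sum_coll (n d q h : ℕ) :
    ∑ lam : Fin n → Fin d → Fin q, coll h lam =
      ∑ p : (Fin d → Fin h) × (Fin d → Fin h),
        (((q : ℝ) ^ d + ∏ j, R q (p.1 j) (p.2 j)) / 2) ^ n := by
  unfold coll
  rw [Finset.sum_comm]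
  refine Finset.sum_congr rfl fun p _ => ?_
  simp_rw [ind_eq]
  have h1 : ∀ lam : Fin n → Fin d → Fin q, ∀ i,
      (1 + ch (vec lam p.1 i + vec lam p.2 i)) / 2 =
        (1 + ∏ j, ch (bt (p.1 j) (lam i j) + bt (p.2 j) (lam i j))) / 2 := by
    intro lam i
    rw [vec, vec, ← Finset.sum_add_distrib, ch_sum]
  simp_rw [h1]
  have h2 := (Fintype.prod_sum (fun (_ : Fin n) (l : Fin d → Fin q) =>
    (1 + ∏ j, ch (bt (p.1 j) (l j) + bt (p.2 j) (l j))) / 2)).symm
  rw [h2]
  rw [Finset.prod_const, Finset.card_univ, Fintype.card_fin]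
  congr 1
  rw [← Finset.sum_div, Finset.sum_add_distrib]
  congr 2
  · simp
  · have h3 := (Fintype.prod_sum (fun (j : Fin d) (l : Fin q) =>
      ch (bt (p.1 j) l + bt (p.2 j) l))).symm
    rw [h3]
    rfl

lemma sum_pow_R (d q h w : ℕ) :
    ∑ p : (Fin d → Fin h) × (Fin d → Fin h), (∏ j, R q (p.1 j) (p.2 j)) ^ w =
      (∑ a : Fin h, ∑ b : Fin h, R q a b ^ w) ^ d := by
  have h1 := Fintype.prod_sum (fun (_ : Fin d) (x : Fin h × Fin h) => R q x.1 x.2 ^ w)
  rw [Finset.prod_const, Finset.card_univ, Fintype.card_fin, Fintype.sum_prod_type] at h1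
  rw [h1]
  symm
  refine Fintype.sum_equiv (Equiv.arrowProdEquivProdArrow (Fin d) (fun _ => Fin h) (fun _ => Fin h)) _ _ ?_
  intro x
  simp [Finset.prod_pow, Equiv.arrowProdEquivProdArrow]

end Pool.Agent.TH285.BD
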