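import Mathlib
import Pool.Agent.TH285.BD.Coll

/-!
Bounds for the moments of the threshold correlations.
-/

set_option autoImplicit false

open Finset

namespace Pool.Agent.TH285.BD

lemma R_comm (q a b : ℕ) : R q a b = R q b a := by
  unfold R
  refine Finset.sum_congr rfl fun l _ => ?_
  rw [add_comm]

lemma R_of_le {q a b : ℕ} (hab : a ≤ b) (hb : b ≤ q) : R q a b = (q : ℝ) - 2 * ((b : ℝ) - a) := by
  unfold R
  have h1 : ∀ l : ℕ, ch (bt a l + bt b l) = 1 - 2 * (if l ∈ Finset.Ico a b then (1 : ℝ) else 0) := by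
    intro l
    unfold bt
    by_cases h1 : a ≤ l
    · by_cases h2 : b ≤ l
      · rw [if_pos h1, if_pos h2, one_add_one, ch_zero, if_neg (by simp; omega)]; ring
      · rw [if_pos h1, if_neg h2, add_zero, ch_one, if_pos (by simp; omega)]; ring
    · rw [if_neg h1, if_neg (by omega), add_zero, ch_zero, if_neg (by simp; omega)]; ring
  simp_rw [h1]
  rw [Fin.sum_univ_eq_sum_range (fun l => 1 - 2 * (if l ∈ Finset.Ico a b then (1 : ℝ) else 0)) q,
    Finset.sum_sub_distrib, ← Finset.mul_sum, Finset.sum_ite_mem,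
    Finset.inter_eq_right.2 (by intro x hx; simp at hx ⊢; omega)]
  simp [Nat.cast_sub hab]

lemma R_eq {q a b : ℕ} (ha : a ≤ q) (hb : b ≤ q) : R q a b = (q : ℝ) - 2 * |(a : ℝ) - b| := by
  rcases le_total a b with h | h
  · rw [R_of_le h hb, abs_sub_comm, abs_of_nonneg]
    have : (a : ℝ) ≤ b := by exact_mod_cast h
    linarith
  · rw [R_comm, R_of_le h ha, abs_of_nonneg]
    have : (b : ℝ) ≤ a := by exact_mod_cast h
    linarith

/-- total distance -/
lemma sum_abs (h : ℕ) :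
    ∑ a ∈ range h, ∑ b ∈ range h, |(a : ℝ) - b| = ((h : ℝ) ^ 3 - h) / 3 := by
  induction h with
  | zero => simp
  | succ h ih =>
    have h1 : ∀ m : ℕ, ∑ a ∈ range m, ((h : ℝ) - a) = m * h - m * (m - 1) / 2 := by
      intro m
      induction m with
      | zero => simp
      | succ m ihm =>
        rw [Finset.sum_range_succ, ihm]
        push_cast
        ring
    have h2 : ∑ a ∈ range h, |(a : ℝ) - h| = h * h - h * (h - 1) / 2 := by
      rw [← h1 h]
      refine Finset.sum_congr rfl fun a ha => ?_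
      rw [abs_sub_comm, abs_of_nonneg]
      have : (a : ℝ) < h := by exact_mod_cast (Finset.mem_range.1 ha)
      linarith
    have h3 : ∑ a ∈ range h, |(h : ℝ) - a| = h * h - h * (h - 1) / 2 := by
      rw [← h2]
      refine Finset.sum_congr rfl fun a ha => ?_
      rw [abs_sub_comm]
    rw [Finset.sum_range_succ]
    simp_rw [Finset.sum_range_succ _ h]
    rw [Finset.sum_add_distrib, ih, h2, h3]
    simp
    ring

lemma pow_sum_le (w h : ℕ) :
    ((w : ℝ) + 1) * ∑ m ∈ range h, (m : ℝ) ^ w ≤ (h : ℝ) ^ (w + 1) := by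
  have key : ∀ (w h : ℕ), (h : ℝ) ^ (w + 1) + ((w : ℝ) + 1) * (h : ℝ) ^ w ≤ ((h : ℝ) + 1) ^ (w + 1) := by
    intro w h
    induction w with
    | zero => simp
    | succ w ih =>
      have hh : (0 : ℝ) ≤ h := Nat.cast_nonneg h
      have h1 := mul_le_mul_of_nonneg_left ih (by linarith : (0 : ℝ) ≤ (h : ℝ) + 1)
      have h2 : (0 : ℝ) ≤ ((w : ℝ) + 1) * (h : ℝ) ^ w := by positivity
      push_cast
      calc (h : ℝ) ^ (w + 1 + 1) + ((w : ℝ) + 1 + 1) * (h : ℝ) ^ (w + 1)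
          ≤ ((h : ℝ) + 1) * ((h : ℝ) ^ (w + 1) + ((w : ℝ) + 1) * (h : ℝ) ^ w) := by
            ring_nf
            ring_nf at h2
            nlinarith [h2]
        _ ≤ ((h : ℝ) + 1) * ((h : ℝ) + 1) ^ (w + 1) := h1
        _ = ((h : ℝ) + 1) ^ (w + 1 + 1) := by ring
  induction h with
  | zero => simp
  | succ h ih =>
    rw [Finset.sum_range_succ, mul_add]
    push_cast
    linarith [key w h]

lemma sum_dist_le (h a : ℕ) (ha : a < h) (F : ℕ → ℝ) (hF : ∀ k, 0 ≤ F k) :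
    ∑ b ∈ range h, F (if a ≤ b then b - a else a - b) ≤ F 0 + 2 * ∑ j ∈ range h, F (j + 1) := by
  have h1 : ∑ b ∈ range h, F (if a ≤ b then b - a else a - b) =
      ∑ b ∈ range a, F (a - b) + (F 0 + ∑ j ∈ range (h - (a + 1)), F (j + 1)) := by
    have hs : range h = range (a + 1 + (h - (a + 1))) := by congr 1; omega
    rw [hs, Finset.sum_range_add, Finset.sum_range_succ]
    rw [add_assoc]
    congr 1
    · refine Finset.sum_congr rfl fun b hb => ?_
      rw [if_neg (by have := Finset.mem_range.1 hb; omega)]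
    · congr 1
      · simp
      · refine Finset.sum_congr rfl fun b hb => ?_
        rw [if_pos (by omega)]
        congr 1
        omega
  have h2 : ∑ b ∈ range a, F (a - b) = ∑ j ∈ range a, F (j + 1) := by
    rw [← Finset.sum_range_reflect (fun j => F (j + 1)) a]
    refine Finset.sum_congr rfl fun b hb => ?_
    have := Finset.mem_range.1 hb
    congr 1
    omega
  have h3 : ∀ m ≤ h, ∑ j ∈ range m, F (j + 1) ≤ ∑ j ∈ range h, F (j + 1) := by
    intro m hm
    exact Finset.sum_le_sum_of_subset_of_nonneg (Finset.range_subset_range.2 hm)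
      (fun _ _ _ => hF _)
  rw [h1, h2]
  have h4 := h3 a ha.le
  have h5 := h3 (h - (a + 1)) (by omega)
  linarith

/-- moments of the correlations, first bound -/
lemma moment_le_one (h w : ℕ) (hh : 2 ≤ h) (hw : 1 ≤ w) :
    ∑ a : Fin h, ∑ b : Fin h, R (2 * h) a b ^ w ≤ (2 * (h : ℝ)) ^ w * (h : ℝ) ^ 2 * (3 / 4) := by
  have hh0 : (0 : ℝ) < h := by exact_mod_cast (by omega : 0 < h)
  have hq : (0 : ℝ) < 2 * h := by positivity
  have h1 : ∀ a b : Fin h, R (2 * h) a b ^ w ≤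
      (2 * (h : ℝ)) ^ w * (1 - |((a : ℕ) : ℝ) - ((b : ℕ) : ℝ)| / h) := by
    intro a b
    rw [R_eq (by have := a.2; omega) (by have := b.2; omega)]
    have e1 : (((2 * h : ℕ) : ℝ) - 2 * |((a : ℕ) : ℝ) - ((b : ℕ) : ℝ)|) =
        (2 * (h : ℝ)) * (1 - |((a : ℕ) : ℝ) - ((b : ℕ) : ℝ)| / h) := by
      push_cast
      field_simp
    rw [e1, mul_pow]
    refine mul_le_mul_of_nonneg_left ?_ (by positivity)
    have ha : ((a : ℕ) : ℝ) ≤ h := by exact_mod_cast a.2.le
    have hb : ((b : ℕ) : ℝ) ≤ h := by exact_mod_cast b.2.le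
    have ha0 : (0 : ℝ) ≤ ((a : ℕ) : ℝ) := Nat.cast_nonneg _
    have hb0 : (0 : ℝ) ≤ ((b : ℕ) : ℝ) := Nat.cast_nonneg _
    have habs : |((a : ℕ) : ℝ) - ((b : ℕ) : ℝ)| ≤ h := abs_le.2 ⟨by linarith, by linarith⟩
    have h0 : 0 ≤ 1 - |((a : ℕ) : ℝ) - ((b : ℕ) : ℝ)| / h := by
      rw [sub_nonneg, div_le_one hh0]; exact habs
    have h1' : 1 - |((a : ℕ) : ℝ) - ((b : ℕ) : ℝ)| / h ≤ 1 := by
      have : 0 ≤ |((a : ℕ) : ℝ) - ((b : ℕ) : ℝ)| / h := by positivity
      linarith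
    exact pow_le_of_le_one h0 h1' (by omega)
  refine le_trans (Finset.sum_le_sum fun a _ => Finset.sum_le_sum fun b _ => h1 a b) ?_
  have h2 : ∑ a : Fin h, ∑ b : Fin h,
      (2 * (h : ℝ)) ^ w * (1 - |((a : ℕ) : ℝ) - ((b : ℕ) : ℝ)| / h) =
      (2 * (h : ℝ)) ^ w * ((h : ℝ) ^ 2 - ((h : ℝ) ^ 3 - h) / 3 / h) := by
    rw [← sum_abs h]
    rw [Finset.sum_range]
    simp_rw [Finset.sum_range, ← Finset.mul_sum, Finset.sum_sub_distrib, Finset.sum_div]
    congr 1
    simp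
    ring
  rw [h2, mul_assoc]
  refine mul_le_mul_of_nonneg_left ?_ (by positivity)
  have h3 : ((h : ℝ) ^ 3 - h) / 3 / h = ((h : ℝ) ^ 2 - 1) / 3 := by
    field_simp
  rw [h3]
  have h4 : (2 : ℝ) ≤ h := by exact_mod_cast hh
  nlinarith

/-- moments of the correlations, second bound -/
lemma moment_le_two (h w : ℕ) (hw : 1 ≤ w) (hwh : w ≤ h) :
    ∑ a : Fin h, ∑ b : Fin h, R (2 * h) a b ^ w ≤ (2 * (h : ℝ)) ^ w * (h : ℝ) ^ 2 * (3 / w) := by
  have hh0 : (0 : ℝ) < h := by exact_mod_cast (by omega : 0 < h)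
  have hw0 : (0 : ℝ) < w := by exact_mod_cast (by omega : 0 < w)
  set F : ℕ → ℝ := fun k => (2 : ℝ) ^ w * (((h - k : ℕ) : ℝ)) ^ w with hFdef
  have hF : ∀ k, 0 ≤ F k := fun k => by positivity
  have h1 : ∀ a b : Fin h, R (2 * h) a b ^ w =
      F (if (a : ℕ) ≤ b then (b : ℕ) - a else (a : ℕ) - b) := by
    intro a b
    rw [R_eq (by have := a.2; omega) (by have := b.2; omega)]
    simp only [hFdef]
    rw [← mul_pow]
    congr 1
    have ha := a.2
    have hb := b.2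
    split_ifs with hab
    · have hab' : ((a : ℕ) : ℝ) ≤ ((b : ℕ) : ℝ) := by exact_mod_cast hab
      rw [abs_sub_comm, abs_of_nonneg (by linarith), Nat.cast_sub (by omega), Nat.cast_sub hab]
      push_cast
      ring
    · have hab' : ((b : ℕ) : ℝ) ≤ ((a : ℕ) : ℝ) := by exact_mod_cast (by omega : (b : ℕ) ≤ a)
      rw [abs_of_nonneg (by linarith), Nat.cast_sub (by omega), Nat.cast_sub (by omega)]
      push_cast
      ring
  have h2 : ∀ a : Fin h, ∑ b : Fin h, R (2 * h) a b ^ w ≤ F 0 + 2 * ∑ j ∈ range h, F (j + 1) := by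
    intro a
    refine le_trans (le_of_eq ?_) (sum_dist_le h a a.2 F hF)
    rw [Finset.sum_range]
    exact Finset.sum_congr rfl fun b _ => h1 a b
  have h3 : ∑ j ∈ range h, F (j + 1) = (2 : ℝ) ^ w * ∑ m ∈ range h, (m : ℝ) ^ w := by
    rw [← Finset.sum_range_reflect (fun m => (m : ℝ) ^ w) h, Finset.mul_sum]
    refine Finset.sum_congr rfl fun j hj => ?_
    simp only [hFdef]
    congr 3
    have := Finset.mem_range.1 hj
    omega
  have h4 := pow_sum_le w h
  have h5 : ∑ m ∈ range h, (m : ℝ) ^ w ≤ (h : ℝ) ^ (w + 1) / w := by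
    rw [le_div_iff₀ hw0]
    have h6 : (0 : ℝ) ≤ ∑ m ∈ range h, (m : ℝ) ^ w := Finset.sum_nonneg fun _ _ => by positivity
    nlinarith
  calc ∑ a : Fin h, ∑ b : Fin h, R (2 * h) a b ^ w
      ≤ ∑ a : Fin h, (F 0 + 2 * ∑ j ∈ range h, F (j + 1)) := Finset.sum_le_sum fun a _ => h2 a
    _ = h * (F 0 + 2 * ∑ j ∈ range h, F (j + 1)) := by
        rw [Finset.sum_const, Finset.card_univ, Fintype.card_fin, nsmul_eq_mul]
    _ ≤ h * ((2 : ℝ) ^ w * (h : ℝ) ^ w + 2 * ((2 : ℝ) ^ w * ((h : ℝ) ^ (w + 1) / w))) := by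
        rw [h3]
        have hF0 : F 0 = (2 : ℝ) ^ w * (h : ℝ) ^ w := by simp [hFdef]
        rw [hF0]
        have : (2 : ℝ) ^ w * ∑ m ∈ range h, (m : ℝ) ^ w ≤ (2 : ℝ) ^ w * ((h : ℝ) ^ (w + 1) / w) :=
          mul_le_mul_of_nonneg_left h5 (by positivity)
        refine mul_le_mul_of_nonneg_left ?_ hh0.le
        linarith
    _ = (2 * (h : ℝ)) ^ w * (h : ℝ) * (1 + 2 * h / w) := by
        rw [mul_pow]
        field_simp
        ring
    _ ≤ (2 * (h : ℝ)) ^ w * (h : ℝ) ^ 2 * (3 / w) := by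
        rw [mul_assoc, mul_assoc]
        refine mul_le_mul_of_nonneg_left ?_ (by positivity)
        have h7 : (w : ℝ) ≤ h := by exact_mod_cast hwh
        have h8 : (1 : ℝ) ≤ h / w := by rw [le_div_iff₀ hw0]; linarith
        have h9 : (h : ℝ) ^ 2 * (3 / w) = h * (3 * (h / w)) := by field_simp
        rw [h9]
        refine mul_le_mul_of_nonneg_left ?_ hh0.le
        have : 2 * (h : ℝ) / w = 2 * (h / w) := by ring
        rw [this]
        linarith

end Pool.Agent.TH285.BD
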