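import Mathlib
import Pool.Agent.TH285.BD.Avg

/-!
Existence of labels representing half of all vectors, and boosting.
-/

set_option autoImplicit false

open Finset

namespace Pool.Agent.TH285.BD

lemma sum_coll_le (n d h : ℕ) (r : ℕ → ℝ) (hr0 : ∀ w, 0 ≤ r w)
    (hr : ∀ w, 1 ≤ w → w ≤ n →
      ∑ a : Fin h, ∑ b : Fin h, R (2 * h) a b ^ w ≤ (2 * (h : ℝ)) ^ w * (h : ℝ) ^ 2 * r w)
    (hsum : ∑ w ∈ range n, (n.choose (w + 1) : ℝ) * r (w + 1) ^ d ≤ 1) :
    ∑ lam : Fin n → Fin d → Fin (2 * h), coll h lam ≤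
      ((2 * (h : ℝ)) ^ d) ^ n * (2 * ((h : ℝ) ^ d) ^ 2 / 2 ^ n) := by
  rw [sum_coll]
  have hR0 : ∀ w, 0 ≤ ∑ a : Fin h, ∑ b : Fin h, R (2 * h) a b ^ w := by
    intro w
    refine Finset.sum_nonneg fun a _ => Finset.sum_nonneg fun b _ => ?_
    refine pow_nonneg ?_ _
    rw [R_eq (by have := a.2; omega) (by have := b.2; omega)]
    have ha : ((a : ℕ) : ℝ) ≤ h := by exact_mod_cast a.2.le
    have hb : ((b : ℕ) : ℝ) ≤ h := by exact_mod_cast b.2.le
    have ha0 : (0 : ℝ) ≤ ((a : ℕ) : ℝ) := Nat.cast_nonneg _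
    have hb0 : (0 : ℝ) ≤ ((b : ℕ) : ℝ) := Nat.cast_nonneg _
    have habs : |((a : ℕ) : ℝ) - ((b : ℕ) : ℝ)| ≤ h := abs_le.2 ⟨by linarith, by linarith⟩
    push_cast
    linarith
  have h1 : ∀ p : (Fin d → Fin h) × (Fin d → Fin h),
      ((((2 * h : ℕ) : ℝ) ^ d + ∏ j, R (2 * h) (p.1 j) (p.2 j)) / 2) ^ n =
        ∑ w ∈ range (n + 1), ((2 * (h : ℝ)) ^ d) ^ (n - w) * (n.choose w : ℝ) / 2 ^ n *
          (∏ j, R (2 * h) (p.1 j) (p.2 j)) ^ w := by
    intro p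
    rw [div_pow, add_comm, add_pow, Finset.sum_div]
    refine Finset.sum_congr rfl fun w _ => ?_
    push_cast
    ring
  simp_rw [h1]
  rw [Finset.sum_comm]
  simp_rw [← Finset.mul_sum, sum_pow_R]
  rw [Finset.sum_range_succ']
  have h2 : ∀ w ∈ range n, ((2 * (h : ℝ)) ^ d) ^ (n - (w + 1)) * (n.choose (w + 1) : ℝ) / 2 ^ n *
      (∑ a : Fin h, ∑ b : Fin h, R (2 * h) a b ^ (w + 1)) ^ d ≤
      ((2 * (h : ℝ)) ^ d) ^ n * (((h : ℝ) ^ d) ^ 2 / 2 ^ n) *
        ((n.choose (w + 1) : ℝ) * r (w + 1) ^ d) := by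
    intro w hw
    have hw' := Finset.mem_range.1 hw
    have h3 := pow_le_pow_left₀ (hR0 (w + 1)) (hr (w + 1) (by omega) (by omega)) d
    have h4 : ((2 * (h : ℝ)) ^ d) ^ n = ((2 * (h : ℝ)) ^ d) ^ (n - (w + 1)) * ((2 * (h : ℝ)) ^ d) ^ (w + 1) := by
      rw [← pow_add]; congr 1; omega
    calc ((2 * (h : ℝ)) ^ d) ^ (n - (w + 1)) * (n.choose (w + 1) : ℝ) / 2 ^ n *
          (∑ a : Fin h, ∑ b : Fin h, R (2 * h) a b ^ (w + 1)) ^ d
        ≤ ((2 * (h : ℝ)) ^ d) ^ (n - (w + 1)) * (n.choose (w + 1) : ℝ) / 2 ^ n *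
          ((2 * (h : ℝ)) ^ (w + 1) * (h : ℝ) ^ 2 * r (w + 1)) ^ d :=
          mul_le_mul_of_nonneg_left h3 (by positivity)
      _ = ((2 * (h : ℝ)) ^ d) ^ n * (((h : ℝ) ^ d) ^ 2 / 2 ^ n) *
        ((n.choose (w + 1) : ℝ) * r (w + 1) ^ d) := by
          have h5 : ((2 * (h : ℝ)) ^ (w + 1) * (h : ℝ) ^ 2 * r (w + 1)) ^ d =
              ((2 * (h : ℝ)) ^ d) ^ (w + 1) * ((h : ℝ) ^ d) ^ 2 * r (w + 1) ^ d := by
            rw [mul_pow, mul_pow]
            congr 2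
            · rw [← pow_mul, ← pow_mul, mul_comm (w + 1) d]
            · rw [← pow_mul, ← pow_mul, mul_comm 2 d]
          rw [h4, h5]
          generalize (2 * (h : ℝ)) ^ d = Q
          generalize (h : ℝ) ^ d = M
          generalize r (w + 1) ^ d = ρ
          ring
  have h5 : (∑ a : Fin h, ∑ b : Fin h, R (2 * h) a b ^ 0) ^ d = ((h : ℝ) ^ d) ^ 2 := by
    simp
    ring
  rw [h5]
  refine le_trans (add_le_add_left (Finset.sum_le_sum h2) _) ?_
  rw [← Finset.mul_sum]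
  simp only [Nat.sub_zero, Nat.choose_zero_right, Nat.cast_one, mul_one]
  have h6 : 0 ≤ ((2 * (h : ℝ)) ^ d) ^ n * (((h : ℝ) ^ d) ^ 2 / 2 ^ n) := by positivity
  have h7 := mul_le_mul_of_nonneg_left hsum h6
  calc _ ≤ ((2 * (h : ℝ)) ^ d) ^ n * (((h : ℝ) ^ d) ^ 2 / 2 ^ n) * 1 +
        ((2 * (h : ℝ)) ^ d) ^ n / 2 ^ n * ((h : ℝ) ^ d) ^ 2 := by linarith
    _ = _ := by ring

/-- labels for which the image is at least half of everything -/
theorem exists_half (n d h : ℕ) (hh : 1 ≤ h) (r : ℕ → ℝ) (hr0 : ∀ w, 0 ≤ r w)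
    (hr : ∀ w, 1 ≤ w → w ≤ n →
      ∑ a : Fin h, ∑ b : Fin h, R (2 * h) a b ^ w ≤ (2 * (h : ℝ)) ^ w * (h : ℝ) ^ 2 * r w)
    (hsum : ∑ w ∈ range n, (n.choose (w + 1) : ℝ) * r (w + 1) ^ d ≤ 1) :
    ∃ lam : Fin n → Fin d → Fin (2 * h),
      2 ^ n ≤ 2 * (Finset.univ.image (fun g : Fin d → Fin h => vec lam g)).card := by
  classical
  have h1 := sum_coll_le n d h r hr0 hr hsum
  have hh0 : (0 : ℝ) < h := by exact_mod_cast hh
  have h2 : ∃ lam : Fin n → Fin d → Fin (2 * h), coll h lam ≤ 2 * ((h : ℝ) ^ d) ^ 2 / 2 ^ n := by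
    by_contra hcon
    push Not at hcon
    have hne : (Finset.univ : Finset (Fin n → Fin d → Fin (2 * h))).Nonempty :=
      ⟨fun _ _ => ⟨0, by omega⟩, Finset.mem_univ _⟩
    have h3 := Finset.sum_lt_sum_of_nonempty hne (fun lam _ => hcon lam)
    rw [Finset.sum_const, Finset.card_univ, nsmul_eq_mul] at h3
    have h4 : ((Fintype.card (Fin n → Fin d → Fin (2 * h)) : ℕ) : ℝ) = ((2 * (h : ℝ)) ^ d) ^ n := by
      simp
    rw [h4] at h3
    linarith
  obtain ⟨lam, hlam⟩ := h2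
  refine ⟨lam, ?_⟩
  set I := Finset.univ.image (fun g : Fin d → Fin h => vec lam g) with hI
  let N : (Fin n → ZMod 2) → ℝ := fun S => ∑ g : Fin d → Fin h, if vec lam g = S then (1 : ℝ) else 0
  have h5 : ∑ S ∈ I, N S = (h : ℝ) ^ d := by
    simp only [N]
    rw [Finset.sum_comm]
    have : ∀ g : Fin d → Fin h, ∑ S ∈ I, (if vec lam g = S then (1 : ℝ) else 0) = 1 := by
      intro g
      rw [Finset.sum_ite_eq, if_pos]
      exact Finset.mem_image_of_mem _ (Finset.mem_univ g)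
    simp_rw [this]
    simp
  have h6 : ∑ S ∈ I, N S ^ 2 = coll h lam := by
    have h7 : ∀ S, N S ^ 2 = ∑ p : (Fin d → Fin h) × (Fin d → Fin h),
        (if vec lam p.1 = S then (1 : ℝ) else 0) * (if vec lam p.2 = S then (1 : ℝ) else 0) := by
      intro S
      rw [sq, Fintype.sum_prod_type, Finset.sum_mul_sum]
    simp_rw [h7]
    rw [Finset.sum_comm]
    unfold coll
    refine Finset.sum_congr rfl fun p _ => ?_
    have h8 : ∀ S ∈ I, (if vec lam p.1 = S then (1 : ℝ) else 0) * (if vec lam p.2 = S then (1 : ℝ) else 0)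
        = if vec lam p.1 = S then (if vec lam p.2 = vec lam p.1 then (1 : ℝ) else 0) else 0 := by
      intro S _
      by_cases hS : vec lam p.1 = S
      · subst hS; simp
      · simp [hS]
    rw [Finset.sum_congr rfl h8, Finset.sum_ite_eq, if_pos (Finset.mem_image_of_mem _ (Finset.mem_univ _))]
    simp [eq_comm]
  have h9 := sq_sum_le_card_mul_sum_sq (s := I) (f := N)
  rw [h5, h6] at h9
  have h10 : ((h : ℝ) ^ d) ^ 2 ≤ (I.card : ℝ) * (2 * ((h : ℝ) ^ d) ^ 2 / 2 ^ n) :=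
    h9.trans (mul_le_mul_of_nonneg_left hlam (Nat.cast_nonneg _))
  have h11 : (0 : ℝ) < ((h : ℝ) ^ d) ^ 2 := by positivity
  have h12 : (2 : ℝ) ^ n ≤ 2 * I.card := by
    have h13 : (I.card : ℝ) * (2 * ((h : ℝ) ^ d) ^ 2 / 2 ^ n) = (2 * I.card / 2 ^ n) * ((h : ℝ) ^ d) ^ 2 := by
      ring
    rw [h13] at h10
    have h14 : 1 ≤ 2 * (I.card : ℝ) / 2 ^ n := by
      by_contra hc
      push Not at hc
      nlinarith
    rwa [le_div_iff₀ (by positivity), one_mul] at h14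
  exact_mod_cast h12

/-- one averaging step -/
lemma exists_shift {n : ℕ} (B : Finset (Fin n → ZMod 2)) :
    ∃ D : Fin n → ZMod 2, (B.filter (fun S => S + D ∈ B)).card * 2 ^ n ≤ B.card ^ 2 := by
  classical
  by_contra hcon
  push Not at hcon
  have h1 : ∑ D : Fin n → ZMod 2, (B.filter (fun S => S + D ∈ B)).card = B.card ^ 2 := by
    simp_rw [Finset.card_filter]
    rw [Finset.sum_comm]
    have : ∀ S : Fin n → ZMod 2, ∑ D : Fin n → ZMod 2, (if S + D ∈ B then 1 else 0) = B.card := by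
      intro S
      rw [Fintype.sum_equiv (Equiv.addLeft S) (fun D => if S + D ∈ B then 1 else 0)
        (fun T => if T ∈ B then 1 else 0) (fun D => rfl)]
      simp
    simp_rw [this]
    rw [Finset.sum_const, smul_eq_mul, sq]
  have h2 : ∑ D : Fin n → ZMod 2, B.card ^ 2 <
      ∑ D : Fin n → ZMod 2, (B.filter (fun S => S + D ∈ B)).card * 2 ^ n :=
    Finset.sum_lt_sum_of_nonempty ⟨0, Finset.mem_univ _⟩ (fun D _ => hcon D)
  rw [← Finset.sum_mul, h1, Finset.sum_const, Finset.card_univ] at h2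
  simp [mul_comm] at h2

/-- boosting: `e` shifts suffice to represent everything when `n < 2 ^ e` -/
theorem boost {n : ℕ} (I : Finset (Fin n → ZMod 2)) (hI : 2 ^ n ≤ 2 * I.card) (t : ℕ) :
    ∃ Ds : Fin t → Fin n → ZMod 2,
      (Finset.univ.filter (fun S : Fin n → ZMod 2 =>
        ¬ ∃ T ∈ I, ∃ ε : Fin t → Bool, S = T + ∑ k, if ε k then Ds k else 0)).card * 2 ^ (2 ^ t) ≤ 2 ^ n := by
  classical
  induction t with
  | zero =>
    refine ⟨fun k => 0, ?_⟩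
    have h1 : (Finset.univ.filter (fun S : Fin n → ZMod 2 =>
        ¬ ∃ T ∈ I, ∃ ε : Fin 0 → Bool, S = T + ∑ k, if ε k then (0 : Fin n → ZMod 2) else 0)) = Iᶜ := by
      ext S
      simp
    have hc : Fintype.card (Fin n → ZMod 2) = 2 ^ n := by simp
    have hle : I.card ≤ 2 ^ n := by
      rw [← hc]
      exact Finset.card_le_univ I
    rw [h1, Finset.card_compl, hc]
    have : (2 : ℕ) ^ 2 ^ 0 = 2 := by norm_num
    rw [this]
    omega
  | succ t ih =>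
    obtain ⟨Ds, hDs⟩ := ih
    set B := (Finset.univ.filter (fun S : Fin n → ZMod 2 =>
        ¬ ∃ T ∈ I, ∃ ε : Fin t → Bool, S = T + ∑ k, if ε k then Ds k else 0)) with hB
    obtain ⟨D, hD⟩ := exists_shift B
    refine ⟨Fin.cons D Ds, ?_⟩
    have hsub : (Finset.univ.filter (fun S : Fin n → ZMod 2 =>
        ¬ ∃ T ∈ I, ∃ ε : Fin (t + 1) → Bool,
          S = T + ∑ k, if ε k then (Fin.cons D Ds : Fin (t + 1) → Fin n → ZMod 2) k else 0)) ⊆
        B.filter (fun S => S + D ∈ B) := by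
      intro S hS
      rw [Finset.mem_filter] at hS
      rw [Finset.mem_filter, hB, Finset.mem_filter, Finset.mem_filter]
      refine ⟨⟨Finset.mem_univ _, ?_⟩, Finset.mem_univ _, ?_⟩
      · rintro ⟨T, hT, ε, h⟩
        refine hS.2 ⟨T, hT, Fin.cons false ε, ?_⟩
        rw [Fin.sum_univ_succ]
        simpa using h
      · rintro ⟨T, hT, ε, h⟩
        refine hS.2 ⟨T, hT, Fin.cons true ε, ?_⟩
        rw [Fin.sum_univ_succ]
        have hDD : D + D = 0 := by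
          funext i
          have := (eq_iff_add_zero (D i) (D i)).1 rfl
          simpa using this
        have h' : S = S + D + D := by rw [add_assoc, hDD, add_zero]
        rw [h', h]
        simp
        abel
    have h1 := Finset.card_le_card hsub
    have h2 : (B.filter (fun S => S + D ∈ B)).card * 2 ^ (2 ^ (t + 1)) * 2 ^ n ≤ 2 ^ n * 2 ^ n := by
      have h3 : B.card ^ 2 * 2 ^ (2 ^ (t + 1)) ≤ 2 ^ n * 2 ^ n := by
        have h4 : 2 ^ (2 ^ (t + 1)) = (2 ^ (2 ^ t)) * (2 ^ (2 ^ t)) := by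
          rw [← pow_add]
          congr 1
          ring
        rw [h4]
        calc B.card ^ 2 * (2 ^ (2 ^ t) * 2 ^ (2 ^ t))
            = (B.card * 2 ^ (2 ^ t)) * (B.card * 2 ^ (2 ^ t)) := by ring
          _ ≤ 2 ^ n * 2 ^ n := Nat.mul_le_mul hDs hDs
      calc (B.filter (fun S => S + D ∈ B)).card * 2 ^ (2 ^ (t + 1)) * 2 ^ n
          = (B.filter (fun S => S + D ∈ B)).card * 2 ^ n * 2 ^ (2 ^ (t + 1)) := by ring
        _ ≤ B.card ^ 2 * 2 ^ (2 ^ (t + 1)) := Nat.mul_le_mul_right _ hD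
        _ ≤ 2 ^ n * 2 ^ n := h3
    have h5 := Nat.le_of_mul_le_mul_right h2 (by positivity)
    exact (Nat.mul_le_mul_right _ h1).trans h5

theorem boost_all {n : ℕ} (I : Finset (Fin n → ZMod 2)) (hI : 2 ^ n ≤ 2 * I.card) (t : ℕ)
    (ht : n < 2 ^ t) :
    ∃ Ds : Fin t → Fin n → ZMod 2, ∀ S : Fin n → ZMod 2,
      ∃ T ∈ I, ∃ ε : Fin t → Bool, S = T + ∑ k, if ε k then Ds k else 0 := by
  classical
  obtain ⟨Ds, hDs⟩ := boost I hI t
  refine ⟨Ds, fun S => ?_⟩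
  by_contra hS
  have h1 : 1 ≤ (Finset.univ.filter (fun S : Fin n → ZMod 2 =>
        ¬ ∃ T ∈ I, ∃ ε : Fin t → Bool, S = T + ∑ k, if ε k then Ds k else 0)).card :=
    Finset.card_pos.2 ⟨S, Finset.mem_filter.2 ⟨Finset.mem_univ _, hS⟩⟩
  have h2 : 2 ^ n < 2 ^ (2 ^ t) := Nat.pow_lt_pow_right (by norm_num) ht
  have h3 := Nat.mul_le_mul_right (2 ^ (2 ^ t)) h1
  omega

end Pool.Agent.TH285.BD
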