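import Mathlib
import Pool.Agent.TH285.BD.Exist

/-!
Numerical estimates and the labels theorem.
-/

set_option autoImplicit false

open Finset

namespace Pool.Agent.TH285.BD

lemma pow8_le (L : ℕ) (hL : 128 ≤ L) : (48 * L ^ 2) ^ 4 ≤ 2 ^ L := by
  induction L, hL using Nat.le_induction with
  | base => norm_num
  | succ L hL ih =>
    have h1 : (48 * (L + 1) ^ 2) ^ 4 ≤ 2 * (48 * L ^ 2) ^ 4 := by
      have h2 : (L + 1) * 128 ≤ 129 * L := by omega
      have h3 : ((L + 1) * 128) ^ 8 ≤ (129 * L) ^ 8 := Nat.pow_le_pow_left h2 8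
      have h4 : (129 : ℕ) ^ 8 ≤ 2 * 128 ^ 8 := by norm_num
      have h5 : ((L + 1) ^ 8) * 128 ^ 8 ≤ (2 * L ^ 8) * 128 ^ 8 := by
        calc ((L + 1) ^ 8) * 128 ^ 8 = ((L + 1) * 128) ^ 8 := by rw [mul_pow]
          _ ≤ (129 * L) ^ 8 := h3
          _ = 129 ^ 8 * L ^ 8 := by rw [mul_pow]
          _ ≤ (2 * 128 ^ 8) * L ^ 8 := Nat.mul_le_mul_right _ h4
          _ = (2 * L ^ 8) * 128 ^ 8 := by ring
      have h6 : (L + 1) ^ 8 ≤ 2 * L ^ 8 := Nat.le_of_mul_le_mul_right h5 (by positivity)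
      calc (48 * (L + 1) ^ 2) ^ 4 = 48 ^ 4 * (L + 1) ^ 8 := by ring
        _ ≤ 48 ^ 4 * (2 * L ^ 8) := Nat.mul_le_mul_left _ h6
        _ = 2 * (48 * L ^ 2) ^ 4 := by ring
    calc (48 * (L + 1) ^ 2) ^ 4 ≤ 2 * (48 * L ^ 2) ^ 4 := h1
      _ ≤ 2 * 2 ^ L := Nat.mul_le_mul_left _ ih
      _ = 2 ^ (L + 1) := by ring

lemma quad_le (L : ℕ) (hL : 128 ≤ L) : 4 * L * (L + 3) ≤ 2 ^ L := by
  have h1 := pow8_le L hL
  have h2 : 4 * L * (L + 3) ≤ 48 * L ^ 2 := by nlinarith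
  have h3 : 48 * L ^ 2 ≤ (48 * L ^ 2) ^ 4 := Nat.le_self_pow (by norm_num) _
  omega

lemma choose_pow4 (n w : ℕ) (hw : 16 * w ≤ n) : ((n.choose w : ℝ)) ^ 4 ≤ 4 ^ n := by
  have h1 : (n.choose w : ℝ) * (1 / 16) ^ w ≤ (17 / 16) ^ n := by
    have h2 := add_pow (1 / 16 : ℝ) 1 n
    have h3 : (1 / 16 : ℝ) + 1 = 17 / 16 := by norm_num
    rw [h3] at h2
    rw [h2]
    have hmem : w ∈ range (n + 1) := Finset.mem_range.2 (by omega)
    have h4 := Finset.single_le_sum (f := fun m => (1 / 16 : ℝ) ^ m * 1 ^ (n - m) * (n.choose m : ℝ))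
      (fun i _ => by positivity) hmem
    simp only [one_pow, mul_one] at h4 ⊢
    rw [mul_comm]
    exact h4
  have h5 : (n.choose w : ℝ) ≤ (17 / 16) ^ n * 16 ^ w := by
    have h6 : (n.choose w : ℝ) = (n.choose w : ℝ) * (1 / 16) ^ w * 16 ^ w := by
      rw [mul_assoc, ← mul_pow]; norm_num
    rw [h6]
    exact mul_le_mul_of_nonneg_right h1 (by positivity)
  have h7 : ((n.choose w : ℝ)) ^ 4 ≤ ((17 / 16) ^ n * 16 ^ w) ^ 4 :=
    pow_le_pow_left₀ (Nat.cast_nonneg _) h5 4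
  have h8 : (((17 : ℝ) / 16) ^ n * 16 ^ w) ^ 4 = ((17 / 16) ^ 4) ^ n * 2 ^ (16 * w) := by
    rw [mul_pow, ← pow_mul, ← pow_mul, ← pow_mul, mul_comm n 4]
    congr 1
    rw [pow_mul (2 : ℝ) 16 w, pow_mul (16 : ℝ) w 4, ← pow_mul, mul_comm w 4, pow_mul]
    norm_num
  have h9 : (2 : ℝ) ^ (16 * w) ≤ 2 ^ n := pow_le_pow_right₀ (by norm_num) hw
  have h10 : (((17 : ℝ) / 16) ^ 4) ^ n ≤ 2 ^ n := pow_le_pow_left₀ (by positivity) (by norm_num) n
  calc ((n.choose w : ℝ)) ^ 4 ≤ ((17 / 16) ^ 4) ^ n * 2 ^ (16 * w) := h8 ▸ h7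
    _ ≤ 2 ^ n * 2 ^ n := mul_le_mul h10 h9 (by positivity) (by positivity)
    _ = 4 ^ n := by rw [← mul_pow]; norm_num

lemma term_bound (n L d w : ℕ) (hL : 128 ≤ L) (hn : 2 ^ L ≤ n) (hn2 : n < 2 ^ (L + 1))
    (hd : n + 2 ≤ d * (L - 6)) (hw1 : 1 ≤ w) (hw : w ≤ n) :
    (n.choose w : ℝ) * (min (3 / 4) (3 / (w : ℝ))) ^ d ≤
      (1 / 2) ^ (L + 3) + (n.choose w : ℝ) * (1 / 2) ^ (n + 2) := by
  set r : ℝ := min (3 / 4) (3 / (w : ℝ)) with hr
  have hw0 : (0 : ℝ) < w := by exact_mod_cast hw1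
  have hr0 : 0 ≤ r := le_min (by norm_num) (by positivity)
  have hr1 : r ≤ 3 / 4 := min_le_left _ _
  have hr2 : r ≤ 3 / (w : ℝ) := min_le_right _ _
  have hC0 : (0 : ℝ) ≤ (n.choose w : ℝ) := Nat.cast_nonneg _
  have hdL : n ≤ L * d := by
    have : d * (L - 6) ≤ d * L := Nat.mul_le_mul_left _ (by omega)
    rw [mul_comm L d]
    omega
  have hnR : (2 : ℝ) ^ L ≤ n := by exact_mod_cast hn
  have hn0 : (0 : ℝ) < n := lt_of_lt_of_le (by positivity) hnR
  have hquad := quad_le L hL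
  rcases lt_or_ge n (16 * w) with hA | hA
  · -- large w
    have h1 : r ≤ (1 / 2) ^ (L - 6) := by
      refine hr2.trans ?_
      have hAR : (n : ℝ) < 16 * w := by exact_mod_cast hA
      rw [div_le_iff₀ hw0]
      have h2 : (1 / 2 : ℝ) ^ (L - 6) * 2 ^ (L - 6) = 1 := by rw [← mul_pow]; norm_num
      have h3 : (2 : ℝ) ^ L = 2 ^ (L - 6) * 64 := by
        have : (64 : ℝ) = 2 ^ 6 := by norm_num
        rw [this, ← pow_add]; congr 1; omega
      have h4 : (0 : ℝ) < (1 / 2 : ℝ) ^ (L - 6) := by positivity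
      have h5 : (2 : ℝ) ^ (L - 6) * 64 ≤ 16 * w := by rw [← h3]; linarith
      have h6 : (2 : ℝ) ^ (L - 6) * 4 ≤ w := by linarith
      have h7 := mul_le_mul_of_nonneg_left h6 h4.le
      rw [← mul_assoc, h2] at h7
      linarith
    have h2 : r ^ d ≤ (1 / 2) ^ (n + 2) := by
      calc r ^ d ≤ ((1 / 2) ^ (L - 6)) ^ d := pow_le_pow_left₀ hr0 h1 d
        _ = (1 / 2) ^ (d * (L - 6)) := by rw [← pow_mul, mul_comm]
        _ ≤ (1 / 2) ^ (n + 2) := pow_le_pow_of_le_one (by norm_num) (by norm_num) hd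
    have h3 := mul_le_mul_of_nonneg_left h2 hC0
    have h4 : (0 : ℝ) ≤ (1 / 2 : ℝ) ^ (L + 3) := by positivity
    linarith
  · have hgoal : (n.choose w : ℝ) * r ^ d ≤ (1 / 2) ^ (L + 3) →
        (n.choose w : ℝ) * r ^ d ≤ (1 / 2) ^ (L + 3) + (n.choose w : ℝ) * (1 / 2) ^ (n + 2) := by
      intro h
      have : 0 ≤ (n.choose w : ℝ) * (1 / 2) ^ (n + 2) := by positivity
      linarith
    apply hgoal
    have hX0 : 0 ≤ (n.choose w : ℝ) * r ^ d := by positivity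
    rcases lt_or_ge n (16 * L ^ 2 * w) with hB | hB
    · -- middle range
      have h1 : r ^ 4 ≤ (1 / 8) ^ L := by
        have hBR : (n : ℝ) < 16 * L ^ 2 * w := by exact_mod_cast hB
        have h2 : r * 2 ^ L ≤ 48 * L ^ 2 := by
          have h3 : r * w ≤ 3 := by rw [le_div_iff₀ hw0] at hr2; exact hr2
          have h4 : r * 2 ^ L ≤ r * (16 * L ^ 2 * w) := mul_le_mul_of_nonneg_left (by linarith) hr0
          have h5 : r * (16 * L ^ 2 * w) = 16 * L ^ 2 * (r * w) := by ring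
          have h6 : 16 * (L : ℝ) ^ 2 * (r * w) ≤ 16 * (L : ℝ) ^ 2 * 3 :=
            mul_le_mul_of_nonneg_left h3 (by positivity)
          linarith
        have h3 : (r * 2 ^ L) ^ 4 ≤ 2 ^ L := by
          have h4 : ((48 : ℝ) * L ^ 2) ^ 4 ≤ 2 ^ L := by exact_mod_cast pow8_le L hL
          exact (pow_le_pow_left₀ (by positivity) h2 4).trans h4
        have h4 : (r * 2 ^ L) ^ 4 = r ^ 4 * (8 ^ L * 2 ^ L) := by
          have e1 : (8 : ℝ) ^ L * 2 ^ L = 16 ^ L := by rw [← mul_pow]; norm_num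
          have e2 : ((2 : ℝ) ^ L) ^ 4 = 16 ^ L := by
            rw [← pow_mul, mul_comm L 4, pow_mul]; norm_num
          rw [mul_pow, e1, e2]
        rw [h4] at h3
        have h5 : (0 : ℝ) < 2 ^ L := by positivity
        have h6 : r ^ 4 * 8 ^ L ≤ 1 := by
          by_contra hc
          push Not at hc
          nlinarith
        have h7 : (1 / 8 : ℝ) ^ L * 8 ^ L = 1 := by rw [← mul_pow]; norm_num
        have h8 : (0 : ℝ) < 8 ^ L := by positivity
        nlinarith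
      have h2 : ((n.choose w : ℝ) * r ^ d) ^ 4 ≤ ((1 / 2) ^ (L + 3)) ^ 4 := by
        calc ((n.choose w : ℝ) * r ^ d) ^ 4 = (n.choose w : ℝ) ^ 4 * (r ^ 4) ^ d := by
              rw [mul_pow, ← pow_mul, ← pow_mul, mul_comm d 4]
          _ ≤ 4 ^ n * ((1 / 8) ^ L) ^ d :=
              mul_le_mul (choose_pow4 n w hA) (pow_le_pow_left₀ (by positivity) h1 d)
                (by positivity) (by positivity)
          _ = 4 ^ n * (1 / 8) ^ (L * d) := by rw [← pow_mul]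
          _ ≤ 4 ^ n * (1 / 8) ^ n := by
              refine mul_le_mul_of_nonneg_left ?_ (by positivity)
              exact pow_le_pow_of_le_one (by norm_num) (by norm_num) hdL
          _ = (1 / 2) ^ n := by rw [← mul_pow]; norm_num
          _ ≤ (1 / 2) ^ ((L + 3) * 4) := by
              refine pow_le_pow_of_le_one (by norm_num) (by norm_num) ?_
              nlinarith
          _ = ((1 / 2) ^ (L + 3)) ^ 4 := by rw [← pow_mul]
      exact le_of_pow_le_pow_left₀ (by norm_num) (by positivity) h2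
    · -- small w
      have hL0 : 0 < L := by omega
      have h1 : (n.choose w : ℝ) ^ (8 * L) ≤ 2 ^ n := by
        have h2 : n.choose w ≤ n ^ w := Nat.choose_le_pow n w
        have h3 : n ^ w ≤ (2 ^ (L + 1)) ^ w := Nat.pow_le_pow_left hn2.le w
        have h4 : (n.choose w) ^ (8 * L) ≤ 2 ^ n := by
          calc (n.choose w) ^ (8 * L) ≤ ((2 ^ (L + 1)) ^ w) ^ (8 * L) :=
                Nat.pow_le_pow_left (h2.trans h3) _
            _ = 2 ^ ((L + 1) * w * (8 * L)) := by rw [← pow_mul, ← pow_mul, mul_assoc]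
            _ ≤ 2 ^ n := by
                refine Nat.pow_le_pow_right (by norm_num) (le_trans ?_ hB)
                nlinarith [Nat.mul_le_mul_right (8 * L * w) (by omega : L + 1 ≤ 2 * L)]
        exact_mod_cast h4
      have h2 : ((n.choose w : ℝ) * r ^ d) ^ (8 * L) ≤ ((1 / 2) ^ (L + 3)) ^ (8 * L) := by
        calc ((n.choose w : ℝ) * r ^ d) ^ (8 * L)
            = (n.choose w : ℝ) ^ (8 * L) * (r ^ 8) ^ (L * d) := by
              rw [mul_pow, ← pow_mul, ← pow_mul]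
              congr 2
              ring
          _ ≤ 2 ^ n * (1 / 8) ^ (L * d) := by
              refine mul_le_mul h1 (pow_le_pow_left₀ (by positivity) ?_ _) (by positivity) (by positivity)
              calc r ^ 8 ≤ (3 / 4) ^ 8 := pow_le_pow_left₀ hr0 hr1 8
                _ ≤ 1 / 8 := by norm_num
          _ ≤ 2 ^ n * (1 / 8) ^ n := by
              refine mul_le_mul_of_nonneg_left ?_ (by positivity)
              exact pow_le_pow_of_le_one (by norm_num) (by norm_num) hdL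
          _ = (1 / 2) ^ (2 * n) := by rw [← mul_pow, pow_mul]; norm_num
          _ ≤ (1 / 2) ^ ((L + 3) * (8 * L)) := by
              refine pow_le_pow_of_le_one (by norm_num) (by norm_num) ?_
              nlinarith
          _ = ((1 / 2) ^ (L + 3)) ^ (8 * L) := by rw [← pow_mul]
      exact le_of_pow_le_pow_left₀ (by omega) (by positivity) h2

lemma sum_terms (n L d : ℕ) (hL : 128 ≤ L) (hn : 2 ^ L ≤ n) (hn2 : n < 2 ^ (L + 1))
    (hd : n + 2 ≤ d * (L - 6)) :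
    ∑ w ∈ range n, (n.choose (w + 1) : ℝ) * (min (3 / 4) (3 / ((w + 1 : ℕ) : ℝ))) ^ d ≤ 1 := by
  have h1 : ∑ w ∈ range n, (n.choose (w + 1) : ℝ) * (min (3 / 4) (3 / ((w + 1 : ℕ) : ℝ))) ^ d ≤
      ∑ w ∈ range n, ((1 / 2 : ℝ) ^ (L + 3) + (n.choose (w + 1) : ℝ) * (1 / 2) ^ (n + 2)) := by
    refine Finset.sum_le_sum fun w hw => ?_
    exact term_bound n L d (w + 1) hL hn hn2 hd (by omega) (Finset.mem_range.1 hw)
  refine h1.trans ?_
  rw [Finset.sum_add_distrib, ← Finset.sum_mul, Finset.sum_const, Finset.card_range, nsmul_eq_mul]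
  have h2 : ∑ w ∈ range n, (n.choose (w + 1) : ℝ) ≤ 2 ^ n := by
    have h3 := Nat.sum_range_choose n
    rw [Finset.sum_range_succ'] at h3
    have h4 : ∑ w ∈ range n, n.choose (w + 1) ≤ 2 ^ n := by omega
    exact_mod_cast h4
  have h5 : (n : ℝ) * (1 / 2) ^ (L + 3) ≤ 1 / 4 := by
    have h6 : (n : ℝ) ≤ 2 ^ (L + 1) := by exact_mod_cast hn2.le
    calc (n : ℝ) * (1 / 2) ^ (L + 3) ≤ 2 ^ (L + 1) * (1 / 2) ^ (L + 3) :=
          mul_le_mul_of_nonneg_right h6 (by positivity)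
      _ = (2 * (1 / 2)) ^ (L + 1) * (1 / 4) := by
          rw [mul_pow, mul_assoc]; congr 1; rw [pow_add (1 / 2 : ℝ) L 3, pow_add (1 / 2 : ℝ) L 1]; ring
      _ = 1 / 4 := by norm_num
  have h7 : (∑ w ∈ range n, (n.choose (w + 1) : ℝ)) * (1 / 2) ^ (n + 2) ≤ 1 / 4 := by
    calc (∑ w ∈ range n, (n.choose (w + 1) : ℝ)) * (1 / 2) ^ (n + 2) ≤ 2 ^ n * (1 / 2) ^ (n + 2) :=
          mul_le_mul_of_nonneg_right h2 (by positivity)
      _ = (2 * (1 / 2)) ^ n * (1 / 4) := by rw [mul_pow, pow_add]; ring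
      _ = 1 / 4 := by norm_num
  linarith

/-- the labels theorem -/
theorem exists_labels (n L d : ℕ) (hL : 128 ≤ L) (hn : 2 ^ L ≤ n) (hn2 : n < 2 ^ (L + 1))
    (hd : n + 2 ≤ d * (L - 6)) :
    ∃ lam : (Fin d ⊕ Fin (L + 1)) → Fin n → ℕ, ∀ S : Fin n → ZMod 2,
      ∃ g : (Fin d ⊕ Fin (L + 1)) → ℕ, ∀ i, S i = ∑ j, bt (g j) (lam j i) := by
  classical
  have hn1 : 2 ≤ n := by
    have : 2 ^ 1 ≤ 2 ^ L := Nat.pow_le_pow_right (by norm_num) (by omega)
    omega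
  obtain ⟨lam, hlam⟩ := exists_half n d n (by omega) (fun w => min (3 / 4) (3 / (w : ℝ)))
    (fun w => le_min (by norm_num) (by positivity))
    (by
      intro w hw1 hw
      rw [mul_min_of_nonneg _ _ (by positivity)]
      exact le_min (moment_le_one n w hn1 hw1) (moment_le_two n w hw1 hw))
    (sum_terms n L d hL hn hn2 hd)
  obtain ⟨Ds, hDs⟩ := boost_all _ hlam (L + 1) hn2
  refine ⟨Sum.elim (fun j i => (lam i j : ℕ)) (fun k i => if Ds k i = 0 then 0 else 1), fun S => ?_⟩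
  obtain ⟨T, hT, ε, hS⟩ := hDs S
  rw [Finset.mem_image] at hT
  obtain ⟨g, _, hg⟩ := hT
  refine ⟨Sum.elim (fun j => (g j : ℕ)) (fun k => if ε k then 1 else 2), fun i => ?_⟩
  rw [hS, Fintype.sum_sum_type, Pi.add_apply, ← hg]
  simp only [Sum.elim_inl, Sum.elim_inr]
  congr 1
  rw [Finset.sum_apply]
  refine Finset.sum_congr rfl fun k _ => ?_
  by_cases hk : ε k = true
  · simp only [hk, if_true]
    rcases zmod2_cases (Ds k i) with h | h
    · rw [h]; simp [bt]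
    · rw [h]; simp [bt]
  · simp only [hk]
    by_cases h : Ds k i = 0
    · simp [bt, h]
    · simp [bt, h]

end Pool.Agent.TH285.BD
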