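import Mathlib
import Pool.Agent.TH285.BD.Coll

/-!
Boolean realizers: the universal lower bound and the upper bound from labels.
-/

set_option autoImplicit false

open Finset

namespace Pool.Agent.TH285.BD

/-- `(L, τ)` is a Boolean realizer, of size `d`, of the poset `(X, P)`: for all distinct `x, y`,
`x < y` in `P` iff `τ (q₁, …, q_d) = 1`, where `qᵢ` tells whether `x < y` in `Lᵢ`. -/
def IsRealizer {X : Type} (P : PartialOrder X) {d : ℕ} (L : Fin d → LinearOrder X)
    (τ : (Fin d → Bool) → Bool) : Prop :=
  ∀ x y : X, x ≠ y →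
    (P.lt x y ↔ τ (fun i => @decide ((L i).lt x y) (Classical.propDecidable _)) = true)

/-- the Boolean dimension of a poset: the least `d ≥ 1` for which there is a Boolean realizer -/
noncomputable def bdim {X : Type} (P : PartialOrder X) : ℕ :=
  sInf {d | 1 ≤ d ∧ ∃ (L : Fin d → LinearOrder X) (τ : (Fin d → Bool) → Bool), IsRealizer P L τ}

/-- the ground set of `P` is an antichain together with `n` points -/
def AntichainPlus (n : ℕ) {X : Type} (P : PartialOrder X) : Prop :=
  ∃ A : Set X, IsAntichain P.le A ∧ Aᶜ.ncard = n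

/-- the set of Boolean dimensions of the finite posets that are an antichain plus `n` points -/
def bdims (n : ℕ) : Set ℕ :=
  {m | ∃ (X : Type) (_ : Finite X) (P : PartialOrder X), AntichainPlus n P ∧ bdim P = m}

/-- the maximum Boolean dimension of an antichain plus `n` points -/
noncomputable def f (n : ℕ) : ℕ := sSup (bdims n)

lemma realizer_of_keys {X : Type} (P : PartialOrder X) {J : Type} [Fintype J] (κ : J → X → ℕ)
    (hinj : ∀ j, Function.Injective (κ j))
    (h : ∀ x y x' y' : X, x ≠ y → x' ≠ y' → (∀ j, κ j x < κ j y ↔ κ j x' < κ j y') →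
      P.lt x y → P.lt x' y') {d : ℕ} (hd : Fintype.card J = d) :
    ∃ (L : Fin d → LinearOrder X) (τ : (Fin d → Bool) → Bool), IsRealizer P L τ := by
  classical
  let e : Fin d ≃ J := (Fintype.equivFinOfCardEq hd).symm
  let L : Fin d → LinearOrder X := fun i => LinearOrder.lift' (κ (e i)) (hinj (e i))
  have hL : ∀ i x y, (L i).lt x y ↔ κ (e i) x < κ (e i) y := fun i x y => Iff.rfl
  refine ⟨L, fun v => decide (∃ x y, x ≠ y ∧ P.lt x y ∧
    v = fun i => @decide ((L i).lt x y) (Classical.propDecidable _)), ?_⟩
  intro x y hxy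
  rw [decide_eq_true_iff]
  constructor
  · intro hlt
    exact ⟨x, y, hxy, hlt, rfl⟩
  · rintro ⟨x', y', hxy', hlt, hq⟩
    refine h x' y' x y hxy' hxy (fun j => ?_) hlt
    have h1 := congrFun hq (e.symm j)
    have h2 := decide_eq_decide.1 h1
    rw [hL, hL] at h2
    simp only [Equiv.apply_symm_apply] at h2
    exact h2.symm

lemma exists_idx {X : Type} [Finite X] (A : Set X) (n : ℕ) (hn : Aᶜ.ncard = n) :
    ∃ idx : X → Option (Fin n), (∀ x, idx x = none ↔ x ∈ A) ∧
      ∀ x y, idx x = idx y → x ∉ A → x = y := by
  classical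
  have hc : Nat.card (Aᶜ : Set X) = n := by rw [Nat.card_coe_set_eq]; exact hn
  let e : (Aᶜ : Set X) ≃ Fin n := Finite.equivFinOfCardEq hc
  refine ⟨fun x => if h : x ∈ A then none else some (e ⟨x, h⟩), ?_, ?_⟩
  · intro x
    by_cases h : x ∈ A
    · simp [h]
    · simp [h]
  · intro x y hxy hx
    simp only [dif_neg hx] at hxy
    by_cases hy : y ∈ A
    · simp [hy] at hxy
    · rw [dif_neg hy] at hxy
      have := e.injective (Option.some.inj hxy)
      exact congrArg Subtype.val this

/-- the upper bound: labels representing every vector, and `3 m` identification orders -/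
theorem upper {X : Type} [Finite X] (P : PartialOrder X) (n m : ℕ) (hP : AntichainPlus n P)
    (hm : n + 1 ≤ 2 ^ m) {ι : Type} [Fintype ι] (lam : ι → Fin n → ℕ)
    (hlam : ∀ S : Fin n → ZMod 2, ∃ g : ι → ℕ, ∀ i, S i = ∑ j, bt (g j) (lam j i))
    (d : ℕ) (hd : Fintype.card ι + 3 * m = d) :
    ∃ (L : Fin d → LinearOrder X) (τ : (Fin d → Bool) → Bool), IsRealizer P L τ := by
  classical
  obtain ⟨A, hA, hAn⟩ := hP
  obtain ⟨idx, hidx, hidx'⟩ := exists_idx A n hAn
  obtain ⟨M, ⟨eX⟩⟩ := Finite.exists_equiv_fin X
  -- codes
  have hcode : ∃ code : Option (Fin n) → (Fin m → Bool), Function.Injective code := by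
    have h1 : Fintype.card (Option (Fin n)) ≤ Fintype.card (Fin m → Bool) := by
      simp only [Fintype.card_option, Fintype.card_fin, Fintype.card_fun, Fintype.card_bool]
      exact hm
    exact ⟨_, (Function.Embedding.nonempty_of_card_le h1).some.injective⟩
  obtain ⟨code, hcode⟩ := hcode
  set N : X → ℕ := fun x => (eX x : ℕ) with hN
  have hNM : ∀ x, N x < M := fun x => (eX x).2
  have hNinj : ∀ x y, N x = N y → x = y := fun x y h => eX.injective (Fin.ext h)
  set c : X → Fin m → Bool := fun x => code (idx x) with hc
  -- comparability vectors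
  have hvec : ∀ x : X, ∃ g : ι → ℕ, ∀ y : X, ∀ i : Fin n, idx y = some i →
      (if (P.lt x y ∨ P.lt y x) then (1 : ZMod 2) else 0) = ∑ j, bt (g j) (lam j i) := by
    intro x
    obtain ⟨g, hg⟩ := hlam (fun i => if (∃ y, idx y = some i ∧ (P.lt x y ∨ P.lt y x)) then 1 else 0)
    refine ⟨g, fun y i hi => ?_⟩
    rw [← hg i]
    have hyA : y ∉ A := by
      intro hy
      rw [(hidx y).2 hy] at hi
      exact absurd hi (by simp)
    by_cases hcmp : P.lt x y ∨ P.lt y x
    · rw [if_pos hcmp, if_pos ⟨y, hi, hcmp⟩]
    · rw [if_neg hcmp, if_neg]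
      rintro ⟨y', hy', hcmp'⟩
      have : y = y' := hidx' y y' (by rw [hi, hy']) hyA
      subst this
      exact hcmp hcmp'
  choose g hg using hvec
  -- keys
  let key0 : ι → X → ℕ := fun j x => match idx x with
    | none => 2 * g x j
    | some i => 2 * lam j i + 1
  have key0_A : ∀ j x, idx x = none → key0 j x = 2 * g x j := by
    intro j x hx
    simp only [key0, hx]
  have key0_B : ∀ j x i, idx x = some i → key0 j x = 2 * lam j i + 1 := by
    intro j x i hx
    simp only [key0, hx]
  let κ : (ι ⊕ (Fin m ⊕ (Fin m ⊕ Fin m))) → X → ℕ := fun J x => match J with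
    | Sum.inl j => key0 j x * M + N x
    | Sum.inr (Sum.inl k) => (if c x k = true then 0 else M) + N x
    | Sum.inr (Sum.inr (Sum.inl k)) => (if c x k = true then M else 0) + N x
    | Sum.inr (Sum.inr (Sum.inr k)) => if c x k = true then M - 1 - N x else M + N x
  have hκinj : ∀ J, Function.Injective (κ J) := by
    intro J x y hxy
    apply hNinj
    have hx := hNM x
    have hy := hNM y
    rcases J with j | k | k | k
    · have h1 : (key0 j x * M + N x) % M = (key0 j y * M + N y) % M := congrArg (· % M) hxy
      rw [Nat.mul_add_mod_of_lt hx, Nat.mul_add_mod_of_lt hy] at h1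
      exact h1
    · simp only [κ] at hxy
      split_ifs at hxy <;> omega
    · simp only [κ] at hxy
      split_ifs at hxy <;> omega
    · simp only [κ] at hxy
      split_ifs at hxy <;> omega
  -- main comparisons
  have hmainAB : ∀ j x y i, idx x = none → idx y = some i →
      (κ (Sum.inl j) x < κ (Sum.inl j) y ↔ g x j ≤ lam j i) := by
    intro j x y i hx hy
    have hxM := hNM x
    have hyM := hNM y
    simp only [κ]
    rw [key0_A j x hx, key0_B j y i hy]
    constructor
    · intro h
      by_contra hcon
      push Not at hcon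
      have h1 : (2 * lam j i + 2) * M ≤ 2 * g x j * M := Nat.mul_le_mul_right _ (by omega)
      have h2 : (2 * lam j i + 2) * M = (2 * lam j i + 1) * M + M := by ring
      omega
    · intro h
      have h1 : (2 * g x j + 1) * M ≤ (2 * lam j i + 1) * M := Nat.mul_le_mul_right _ (by omega)
      have h2 : (2 * g x j + 1) * M = 2 * g x j * M + M := by ring
      omega
  have hmainBA : ∀ j x y i, idx x = some i → idx y = none →
      (κ (Sum.inl j) x < κ (Sum.inl j) y ↔ ¬ g y j ≤ lam j i) := by
    intro j x y i hx hy
    rw [← hmainAB j y x i hy hx, not_lt]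
    have hne : κ (Sum.inl j) x ≠ κ (Sum.inl j) y := by
      intro h
      have := hκinj (Sum.inl j) h
      rw [this, hy] at hx
      exact absurd hx (by simp)
    omega
  refine realizer_of_keys P κ hκinj ?_ (by rw [← hd]; simp; ring)
  intro x y x' y' hxy hxy' hq hlt
  -- identification
  have hid : ∀ k, c x k = c x' k ∧ c y k = c y' k := by
    intro k
    have q1 := hq (Sum.inr (Sum.inl k))
    have q2 := hq (Sum.inr (Sum.inr (Sum.inl k)))
    have q3 := hq (Sum.inr (Sum.inr (Sum.inr k)))
    simp only [κ] at q1 q2 q3
    have n1 : N x ≠ N y := fun h => hxy (hNinj _ _ h)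
    have n2 : N x' ≠ N y' := fun h => hxy' (hNinj _ _ h)
    have b1 := hNM x
    have b2 := hNM y
    have b3 := hNM x'
    have b4 := hNM y'
    cases hcx : c x k <;> cases hcy : c y k <;> cases hcx' : c x' k <;> cases hcy' : c y' k <;>
      simp only [hcx, hcy, hcx', hcy', if_true, if_false, Bool.false_eq_true] at q1 q2 q3 <;>
      first
        | exact ⟨rfl, rfl⟩
        | (exfalso; omega)
  have hix : idx x = idx x' := hcode (funext fun k => (hid k).1)
  have hiy : idx y = idx y' := hcode (funext fun k => (hid k).2)
  have hirr : ∀ u v : X, u ∈ A → v ∈ A → ¬ P.lt u v := by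
    intro u v hu hv h
    have hle : P.le u v := @le_of_lt X P.toPreorder u v h
    have hne : u ≠ v := by
      rintro rfl
      exact @lt_irrefl X P.toPreorder u h
    exact hA hu hv hne hle
  cases hx : idx x with
  | none =>
    have hxA := (hidx x).1 hx
    have hxA' := (hidx x').1 (hix ▸ hx)
    cases hy : idx y with
    | none =>
      exact absurd hlt (hirr x y hxA ((hidx y).1 hy))
    | some i =>
      have hyA : y ∉ A := by
        intro h
        rw [(hidx y).2 h] at hy
        exact absurd hy (by simp)
      have hyy : y = y' := hidx' y y' hiy hyA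
      subst hyy
      have e1 := hg x y i hy
      have e2 := hg x' y i hy
      have e3 : ∀ j, bt (g x j) (lam j i) = bt (g x' j) (lam j i) := by
        intro j
        have := hq (Sum.inl j)
        rw [hmainAB j x y i hx hy, hmainAB j x' y i (hix ▸ hx) hy] at this
        unfold bt
        by_cases h : g x j ≤ lam j i
        · rw [if_pos h, if_pos (this.1 h)]
        · rw [if_neg h, if_neg (fun h' => h (this.2 h'))]
      rw [Finset.sum_congr rfl (fun j _ => e3 j), ← e2, if_pos (Or.inl hlt)] at e1
      have hcmp : P.lt x' y ∨ P.lt y x' := by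
        by_contra hcon
        rw [if_neg hcon] at e1
        exact absurd e1 (by decide)
      rcases hcmp with h | h
      · exact h
      · exact absurd (@lt_trans X P.toPreorder x y x' hlt h) (hirr x x' hxA hxA')
  | some i =>
    have hxA : x ∉ A := by
      intro h
      rw [(hidx x).2 h] at hx
      exact absurd hx (by simp)
    have hxx : x = x' := hidx' x x' hix hxA
    subst hxx
    cases hy : idx y with
    | none =>
      have hyA := (hidx y).1 hy
      have hyA' := (hidx y').1 (hiy ▸ hy)
      have e1 := hg y x i hx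
      have e2 := hg y' x i hx
      have e3 : ∀ j, bt (g y j) (lam j i) = bt (g y' j) (lam j i) := by
        intro j
        have := hq (Sum.inl j)
        rw [hmainBA j x y i hx hy, hmainBA j x y' i hx (hiy ▸ hy), not_iff_not] at this
        unfold bt
        by_cases h : g y j ≤ lam j i
        · rw [if_pos h, if_pos (this.1 h)]
        · rw [if_neg h, if_neg (fun h' => h (this.2 h'))]
      rw [Finset.sum_congr rfl (fun j _ => e3 j), ← e2, if_pos (Or.inr hlt)] at e1
      have hcmp : P.lt y' x ∨ P.lt x y' := by
        by_contra hcon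
        rw [if_neg hcon] at e1
        exact absurd e1 (by decide)
      rcases hcmp with h | h
      · exact absurd (@lt_trans X P.toPreorder y' x y h hlt) (hirr y' y hyA' hyA)
      · exact h
    | some i' =>
      have hyA : y ∉ A := by
        intro h
        rw [(hidx y).2 h] at hy
        exact absurd hy (by simp)
      have hyy : y = y' := hidx' y y' hiy hyA
      subst hyy
      exact hlt

end Pool.Agent.TH285.BD
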