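import Mathlib
import Pool.Agent.TH285.BD.Poset

/-!
The lower bound for the universal poset.
-/

set_option autoImplicit false

open Finset

namespace Pool.Agent.TH285.BD

/-- the order relation of the universal poset -/
def univLe (n : ℕ) : ((Fin n → Bool) ⊕ Fin n) → ((Fin n → Bool) ⊕ Fin n) → Prop
  | Sum.inl S, Sum.inl T => S = T
  | Sum.inl S, Sum.inr i => S i = true
  | Sum.inr _, Sum.inl _ => False
  | Sum.inr i, Sum.inr j => i = j

/-- all subsets of `[n]` (as minimal points) below `n` points, by membership -/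
@[reducible] def univPoset (n : ℕ) : PartialOrder ((Fin n → Bool) ⊕ Fin n) where
  le := univLe n
  lt x y := univLe n x y ∧ ¬ univLe n y x
  lt_iff_le_not_ge _ _ := Iff.rfl
  le_refl x := by
    rcases x with S | i
    · exact rfl
    · exact rfl
  le_trans x y z hxy hyz := by
    rcases x with S | i <;> rcases y with T | j <;> rcases z with U | k
    · exact Eq.trans hxy hyz
    · have h : S = T := hxy
      subst h; exact hyz
    · exact absurd hyz (fun h => h)
    · have h : j = k := hyz
      subst h; exact hxy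
    · exact hxy
    · exact absurd hxy (fun h => h)
    · exact hyz
    · exact Eq.trans hxy hyz
  le_antisymm x y hxy hyx := by
    rcases x with S | i <;> rcases y with T | j
    · exact congrArg Sum.inl hxy
    · exact absurd hyx (fun h => h)
    · exact absurd hxy (fun h => h)
    · exact congrArg Sum.inr hxy

lemma univPoset_antichainPlus (n : ℕ) : AntichainPlus n (univPoset n) := by
  refine ⟨Set.range Sum.inl, ?_, ?_⟩
  · rintro _ ⟨S, rfl⟩ _ ⟨T, rfl⟩ hne h
    exact hne (congrArg Sum.inl (h : S = T))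
  · have h1 : (Set.range (Sum.inl : (Fin n → Bool) → (Fin n → Bool) ⊕ Fin n))ᶜ =
        Set.range Sum.inr := by
      ext x
      rcases x with S | i
      · simp
      · simp
    rw [h1, ← Set.image_univ, Set.ncard_image_of_injective _ Sum.inr_injective, Set.ncard_univ]
    simp

lemma univPoset_lt (n : ℕ) (S : Fin n → Bool) (i : Fin n) :
    (univPoset n).lt (Sum.inl S) (Sum.inr i) ↔ S i = true := by
  rw [@lt_iff_le_not_ge _ (univPoset n).toPreorder]
  constructor
  · intro h
    exact h.1
  · intro h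
    exact ⟨h, fun h' => h'⟩

theorem lower (n d : ℕ) (L : Fin d → LinearOrder ((Fin n → Bool) ⊕ Fin n))
    (τ : (Fin d → Bool) → Bool) (h : IsRealizer (univPoset n) L τ) : 2 ^ n ≤ (n + 1) ^ d := by
  classical
  let F : (Fin n → Bool) → Fin d → Finset (Fin n) := fun S j =>
    Finset.univ.filter (fun i => (L j).lt (Sum.inr i) (Sum.inl S))
  let g : (Fin n → Bool) → Fin d → Fin (n + 1) := fun S j =>
    ⟨(F S j).card, Nat.lt_succ_of_le (le_trans (Finset.card_le_univ _) (by simp))⟩
  have hF : ∀ S T j, (F S j).card = (F T j).card → F S j = F T j := by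
    intro S T j hcard
    rcases @le_total _ (L j) (Sum.inl S) (Sum.inl T) with hST | hTS
    · refine Finset.eq_of_subset_of_card_le ?_ hcard.ge
      intro i hi
      rw [Finset.mem_filter] at hi ⊢
      exact ⟨Finset.mem_univ _, @lt_of_lt_of_le _ (L j).toPreorder _ _ _ hi.2 hST⟩
    · refine (Finset.eq_of_subset_of_card_le ?_ hcard.le).symm
      intro i hi
      rw [Finset.mem_filter] at hi ⊢
      exact ⟨Finset.mem_univ _, @lt_of_lt_of_le _ (L j).toPreorder _ _ _ hi.2 hTS⟩
  have hlt : ∀ S j i, (L j).lt (Sum.inl S) (Sum.inr i) ↔ i ∉ F S j := by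
    intro S j i
    have hne : (Sum.inl S : (Fin n → Bool) ⊕ Fin n) ≠ Sum.inr i := by simp
    simp only [F, Finset.mem_filter, Finset.mem_univ, true_and]
    constructor
    · intro h1 h2
      exact @lt_asymm _ (L j).toPreorder _ _ h1 h2
    · intro h1
      rcases @lt_trichotomy _ (L j) (Sum.inl S) (Sum.inr i) with h2 | h2 | h2
      · exact h2
      · exact absurd h2 hne
      · exact absurd h2 h1
  have hinj : Function.Injective g := by
    intro S T hST
    have hFF : ∀ j, F S j = F T j := by
      intro j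
      apply hF
      have := congrFun hST j
      exact congrArg Fin.val this
    funext i
    have h1 := h (Sum.inl S) (Sum.inr i) (by simp)
    have h2 := h (Sum.inl T) (Sum.inr i) (by simp)
    rw [univPoset_lt] at h1 h2
    have h3 : (fun j => @decide ((L j).lt (Sum.inl S) (Sum.inr i)) (Classical.propDecidable _)) =
        (fun j => @decide ((L j).lt (Sum.inl T) (Sum.inr i)) (Classical.propDecidable _)) := by
      funext j
      rw [decide_eq_decide, hlt, hlt, hFF]
    rw [h3] at h1
    have h4 : S i = true ↔ T i = true := h1.trans h2.symm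
    exact Bool.eq_iff_iff.2 h4
  have h5 := Fintype.card_le_of_injective g hinj
  simpa using h5

lemma one_le_two_pow_succ (n : ℕ) : n + 1 ≤ 2 ^ (n + 1) := Nat.lt_two_pow_self.le

/-- trivial labels -/
lemma trivial_labels (n : ℕ) :
    ∃ lam : Fin n → Fin n → ℕ, ∀ S : Fin n → ZMod 2, ∃ g : Fin n → ℕ, ∀ i,
      S i = ∑ j, bt (g j) (lam j i) := by
  classical
  refine ⟨fun j i => if j = i then 1 else 0, fun S => ⟨fun j => if S j = 0 then 2 else 1, fun i => ?_⟩⟩
  rw [Finset.sum_eq_single i]
  · rcases zmod2_cases (S i) with h | h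
    · simp [bt, h]
    · simp [bt, h]
  · intro j _ hj
    have h1 : ¬ (if S j = 0 then 2 else 1) ≤ (if j = i then 1 else 0) := by
      rw [if_neg hj]
      split_ifs <;> omega
    exact if_neg h1
  · intro h
    exact absurd (Finset.mem_univ i) h

/-- every antichain plus `n` points has Boolean dimension at most `n + 3 m` if `n + 1 ≤ 2 ^ m` -/
lemma bdim_le_trivial {X : Type} [Finite X] (P : PartialOrder X) (n m : ℕ) (hP : AntichainPlus n P)
    (hm : n + 1 ≤ 2 ^ m) (hm1 : 1 ≤ m) : bdim P ≤ n + 3 * m := by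
  obtain ⟨lam, hlam⟩ := trivial_labels n
  have h1 := upper P n m hP hm lam hlam (n + 3 * m) (by simp)
  exact Nat.sInf_le ⟨by omega, h1⟩

/-- the Boolean dimension is attained -/
lemma bdim_spec {X : Type} [Finite X] (P : PartialOrder X) (n : ℕ) (hP : AntichainPlus n P) :
    1 ≤ bdim P ∧ ∃ (L : Fin (bdim P) → LinearOrder X) (τ : (Fin (bdim P) → Bool) → Bool),
      IsRealizer P L τ := by
  obtain ⟨lam, hlam⟩ := trivial_labels n
  have h1 := upper P n (n + 1) hP (one_le_two_pow_succ n) lam hlam (n + 3 * (n + 1)) (by simp)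
  have h2 : bdim P ∈ {d | 1 ≤ d ∧ ∃ (L : Fin d → LinearOrder X) (τ : (Fin d → Bool) → Bool),
      IsRealizer P L τ} := Nat.sInf_mem ⟨_, by omega, h1⟩
  exact h2

lemma bdims_bdd (n : ℕ) : BddAbove (bdims n) := by
  refine ⟨n + 3 * (n + 1), ?_⟩
  rintro _ ⟨X, hX, P, hP, rfl⟩
  exact bdim_le_trivial P n (n + 1) hP (one_le_two_pow_succ n) (by omega)

lemma bdims_nonempty (n : ℕ) : (bdims n).Nonempty :=
  ⟨_, _, inferInstance, univPoset n, univPoset_antichainPlus n, rfl⟩

lemma f_isGreatest (n : ℕ) : IsGreatest (bdims n) (f n) :=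
  ⟨Nat.sSup_mem (bdims_nonempty n) (bdims_bdd n), fun _ hm => le_csSup (bdims_bdd n) hm⟩

lemma f_lower (n : ℕ) : 2 ^ n ≤ (n + 1) ^ (f n) := by
  obtain ⟨_, L, τ, h⟩ := bdim_spec (univPoset n) n (univPoset_antichainPlus n)
  have h1 := lower n _ L τ h
  have h2 : bdim (univPoset n) ≤ f n :=
    (f_isGreatest n).2 ⟨_, inferInstance, univPoset n, univPoset_antichainPlus n, rfl⟩
  exact h1.trans (Nat.pow_le_pow_right (by omega) h2)

lemma f_upper_trivial (n m : ℕ) (hm : n + 1 ≤ 2 ^ m) (hm1 : 1 ≤ m) : f n ≤ n + 3 * m := by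
  obtain ⟨X, hX, P, hP, hb⟩ := (f_isGreatest n).1
  rw [← hb]
  exact bdim_le_trivial P n m hP hm hm1

end Pool.Agent.TH285.BD
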