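import Mathlib
import Pool.Agent.TH285.BD.Labels
import Pool.Agent.TH285.BD.Lower

/-!
Asymptotics of the maximum Boolean dimension.
-/

set_option autoImplicit false

open Finset

namespace Pool.Agent.TH285.BD

lemma f_upper_nat (n L : ℕ) (hL : 128 ≤ L) (hn : 2 ^ L ≤ n) (hn2 : n < 2 ^ (L + 1)) :
    f n ≤ (n + 2) / (L - 6) + 1 + 4 * (L + 1) := by
  set d := (n + 2) / (L - 6) + 1 with hd
  have hd' : n + 2 ≤ d * (L - 6) := by
    have h1 := Nat.div_add_mod (n + 2) (L - 6)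
    have h2 := Nat.mod_lt (n + 2) (by omega : 0 < L - 6)
    have h3 : d * (L - 6) = (L - 6) * ((n + 2) / (L - 6)) + (L - 6) := by rw [hd]; ring
    omega
  obtain ⟨lam, hlam⟩ := exists_labels n L d hL hn hn2 hd'
  obtain ⟨X, hX, P, hP, hb⟩ := (f_isGreatest n).1
  rw [← hb]
  have h1 := upper P n (L + 1) hP (by omega) lam hlam (d + 4 * (L + 1)) (by simp; ring)
  refine Nat.sInf_le ⟨?_, h1⟩
  have : 1 ≤ 4 * (L + 1) := by omega
  exact this.trans (Nat.le_add_left _ _)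

lemma cube_le (L : ℕ) (hL : 128 ≤ L) : 5 * (L + 1) ^ 3 ≤ 2 ^ L := by
  have h1 := pow8_le L hL
  have h2 : (L + 1) ^ 3 ≤ (2 * L) ^ 3 := Nat.pow_le_pow_left (by omega) 3
  have h3 : 5 * (2 * L) ^ 3 ≤ (48 * L ^ 2) ^ 4 := by
    have h4 : (48 * L ^ 2) ^ 4 = 48 ^ 4 * L ^ 5 * L ^ 3 := by ring
    have h5 : 5 * (2 * L) ^ 3 = 40 * L ^ 3 := by ring
    rw [h4, h5]
    refine Nat.mul_le_mul_right _ ?_
    have : 1 ≤ L ^ 5 := Nat.one_le_pow _ _ (by omega)
    omega
  omega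

theorem f_upper_real : ∃ C : ℝ, ∀ n : ℕ, 2 ≤ n →
    (f n : ℝ) ≤ n / Real.logb 2 n + C * (n / (Real.logb 2 n) ^ 2) := by
  refine ⟨4000000, fun n hn => ?_⟩
  set x : ℝ := Real.logb 2 n with hx
  have hn0 : (0 : ℝ) < n := by exact_mod_cast (by omega : 0 < n)
  have hx1 : 1 ≤ x := by
    rw [hx, Real.le_logb_iff_rpow_le (by norm_num) hn0]
    simpa using (by exact_mod_cast hn : (2 : ℝ) ≤ n)
  rcases lt_or_ge n (2 ^ 128) with hs | hs
  · have h1 := f_upper_trivial n 128 (by omega) (by norm_num)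
    have h2 : (f n : ℝ) ≤ n + 384 := by exact_mod_cast h1
    have hx2 : x ≤ 128 := by
      rw [hx, Real.logb_le_iff_le_rpow (by norm_num) hn0]
      have : (n : ℝ) ≤ 2 ^ 128 := by exact_mod_cast hs.le
      exact_mod_cast this
    have h3 : (n : ℝ) / 16384 ≤ n / x ^ 2 := by
      refine div_le_div_of_nonneg_left hn0.le (by positivity) ?_
      nlinarith
    have h4 : 0 ≤ n / x := by positivity
    have h5 : (2 : ℝ) ≤ n := by exact_mod_cast hn
    have h6 : (4000000 : ℝ) * (n / 16384) ≤ 4000000 * (n / x ^ 2) :=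
      mul_le_mul_of_nonneg_left h3 (by norm_num)
    nlinarith
  · set L := Nat.log 2 n with hL
    have hn1 : 2 ^ L ≤ n := Nat.pow_log_le_self 2 (by omega)
    have hn2 : n < 2 ^ (L + 1) := Nat.lt_pow_succ_log_self (by norm_num) n
    have hL1 : 128 ≤ L := by
      rw [hL]
      exact (Nat.le_log_iff_pow_le (by norm_num) (by omega)).2 hs
    have h1 := f_upper_nat n L hL1 hn1 hn2
    have hxL : x < L + 1 := by
      rw [hx, Real.logb_lt_iff_lt_rpow (by norm_num) hn0]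
      have : (n : ℝ) < 2 ^ (L + 1) := by exact_mod_cast hn2
      exact_mod_cast this
    have hLx : (L : ℝ) ≤ x := by
      rw [hx, Real.le_logb_iff_rpow_le (by norm_num) hn0]
      have : (2 : ℝ) ^ L ≤ n := by exact_mod_cast hn1
      exact_mod_cast this
    have hLR : (128 : ℝ) ≤ L := by exact_mod_cast hL1
    have h2 : (f n : ℝ) ≤ (n + 2) / (L - 6) + 1 + 4 * (L + 1) := by
      have h3 : (((n + 2) / (L - 6) : ℕ) : ℝ) ≤ ((n + 2 : ℕ) : ℝ) / ((L - 6 : ℕ) : ℝ) := Nat.cast_div_le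
      have h4 : ((L - 6 : ℕ) : ℝ) = (L : ℝ) - 6 := by
        rw [Nat.cast_sub (by omega)]; norm_num
      rw [h4] at h3
      have h5 : (f n : ℝ) ≤ (((n + 2) / (L - 6) : ℕ) : ℝ) + 1 + 4 * (L + 1) := by exact_mod_cast h1
      push_cast at h3
      linarith
    have hx7 : (0 : ℝ) < x - 7 := by linarith
    have h3 : ((n : ℝ) + 2) / (L - 6) ≤ (n + 2) / (x - 7) :=
      div_le_div_of_nonneg_left (by positivity) hx7 (by linarith)
    have h4 : (n : ℝ) / (x - 7) ≤ n / x + 8 * (n / x ^ 2) := by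
      have hx0 : 0 < x := by linarith
      have h5 : 1 / (x - 7) ≤ 1 / x + 8 * (1 / x ^ 2) := by
        have h6 : 1 / x + 8 * (1 / x ^ 2) = (x + 8) / x ^ 2 := by field_simp
        rw [h6, div_le_div_iff₀ hx7 (by positivity)]
        nlinarith
      calc (n : ℝ) / (x - 7) = n * (1 / (x - 7)) := by ring
        _ ≤ n * (1 / x + 8 * (1 / x ^ 2)) := mul_le_mul_of_nonneg_left h5 hn0.le
        _ = n / x + 8 * (n / x ^ 2) := by ring
    have h5 : (2 : ℝ) / (x - 7) ≤ 1 := by rw [div_le_one hx7]; linarith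
    have h6 : ((n : ℝ) + 2) / (x - 7) = n / (x - 7) + 2 / (x - 7) := add_div _ _ _
    have h7 : 5 * x ≤ n / x ^ 2 := by
      rw [le_div_iff₀ (by positivity)]
      have h8 : (5 : ℝ) * (L + 1) ^ 3 ≤ 2 ^ L := by exact_mod_cast cube_le L hL1
      have h9 : (2 : ℝ) ^ L ≤ n := by exact_mod_cast hn1
      have h10 : x ^ 3 ≤ ((L : ℝ) + 1) ^ 3 := pow_le_pow_left₀ (by linarith) hxL.le 3
      calc 5 * x * x ^ 2 = 5 * x ^ 3 := by ring
        _ ≤ 5 * ((L : ℝ) + 1) ^ 3 := by linarith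
        _ ≤ n := by linarith
    have h8 : 0 ≤ n / x ^ 2 := by positivity
    linarith

theorem f_lower_real (n : ℕ) : (n : ℝ) / Real.logb 2 (n + 1) ≤ f n := by
  rcases Nat.eq_zero_or_pos n with h0 | h0
  · subst h0; simp
  have h1 := f_lower n
  have h2 : (2 : ℝ) ^ n ≤ ((n : ℝ) + 1) ^ (f n) := by exact_mod_cast h1
  have hn1 : (1 : ℝ) < (n : ℝ) + 1 := by
    have : (0 : ℝ) < n := by exact_mod_cast h0
    linarith
  have h3 := Real.logb_le_logb_of_le (b := 2) (by norm_num) (by positivity) h2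
  rw [Real.logb_pow, Real.logb_pow, Real.logb_self_eq_one (by norm_num), mul_one] at h3
  have h4 : 0 < Real.logb 2 ((n : ℝ) + 1) := Real.logb_pos (by norm_num) hn1
  rw [div_le_iff₀ h4]
  exact h3

end Pool.Agent.TH285.BD
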